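import Pool.Agent.LHJ.K0

/-!
# The walk of the lattice path of `J`
-/

set_option maxRecDepth 100000

namespace LHJ

open LHE

/-- The first coordinates of the points of the lattice path. -/
def mT : List ℤ :=
   [-2, -3, -4, -5, -6, -7, -8, -9, -10, -9, -8, -7, -6, -5, -4, -3, -2, -1, 0, 1,
    2, 3, 4, 5, 4, 3, 2, 1, 0, -1, -2, -3, -4, -5, -6, -7, -8, -9, -10, -9,
    -8, -7, -6, -5, -4, -3, -2, -1, 0, 1, 2, 3, 4, 5, 6, 7, 8, 9, 8, 7,
    6, 5, 4, 5, 6, 7, 8, 7, 6, 5, 4, 3, 2, 1, 0, -1, -2, -3, -4, -5,
    -4, -3, -2, -1, 0, 1, 2, 3, 4, 5, 6, 5, 4, 3, 2, 1, 0, -1, -2, -3,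
    -4, -5, -6, -5, -4, -3, -2, -1, 0, 1, 2, 3, 4, 5, 4, 3, 2, 1, 0, -1]

/-- The second coordinates of the points of the lattice path. -/
def zT : List ℤ :=
   [2, 3, 4, 5, 6, 7, 8, 9, 10, 11, 12, 13, 14, 13, 12, 11, 10, 11, 12, 13,
    14, 15, 16, 17, 18, 19, 20, 21, 22, 21, 20, 19, 18, 17, 16, 15, 14, 13, 12, 11,
    10, 9, 10, 11, 12, 13, 14, 13, 12, 11, 10, 9, 8, 7, 8, 9, 10, 11, 12, 13,
    14, 13, 12, 11, 10, 9, 8, 7, 6, 5, 6, 7, 8, 9, 10, 11, 12, 11, 10, 9,
    8, 7, 6, 5, 6, 7, 8, 9, 10, 11, 12, 13, 14, 13, 12, 11, 10, 9, 8, 9,
    10, 11, 12, 13, 14, 15, 16, 15, 14, 13, 12, 11, 10, 9, 8, 7, 6, 5, 4, 3]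

/-- The first coordinate. -/
def mJ (i : ℤ) : ℤ := mT.getD (i % 120).toNat 0

/-- The second coordinate. -/
def zJ (i : ℤ) : ℤ := zT.getD (i % 120).toNat 0

/-- The entries. -/
def EJ : List (Bool × ℤ × ℤ) :=
   [(false, 4, 5), (true, -4, 5), (false, 5, 9), (true, -5, 9), (false, 6, 9), (true, -6, 9), (false, 7, 5),
    (true, -7, 5), (false, 8, 11), (true, -8, 11), (false, 9, 13), (true, -9, 13), (false, 10, 7), (true, -10, 7),
    (false, 11, 15), (true, -11, 15), (false, 12, 17), (true, -12, 17), (false, 13, 9), (true, -13, 9), (false, 14, 19),
    (true, -14, 19), (false, 15, 21), (true, -15, 21), (false, 16, 11), (true, -16, 11), (false, 17, 23), (true, -17, 23),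
    (false, 18, 25), (true, -18, 25), (false, 19, 13), (true, -19, 13), (false, 20, 27), (true, -20, 27), (false, 21, 29),
    (true, -21, 29), (false, 22, 15), (true, -22, 15), (false, 23, 31), (true, -23, 31), (false, 24, 33), (true, -24, 33),
    (false, 25, 17), (true, -25, 17), (false, 26, 35), (true, -26, 35), (false, 27, 37), (true, -27, 37), (false, 28, 19),
    (true, -28, 19), (false, 29, 39), (true, -29, 39), (false, 30, 40), (true, -29, 41), (false, 29, 41), (true, -28, 21),
    (false, 28, 21), (true, -27, 43), (false, 27, 43), (true, -26, 45), (false, 26, 45), (true, -25, 23), (false, 25, 23),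
    (true, -24, 47), (false, 24, 47), (true, -23, 49), (false, 23, 49), (true, -22, 25), (false, 22, 25), (true, -21, 51),
    (false, 21, 51), (true, -20, 53), (false, 20, 53), (true, -19, 27), (false, 19, 27), (true, -18, 55), (false, 18, 55),
    (true, -17, 55), (false, 17, 55), (true, -16, 27), (false, 16, 27), (true, -15, 53), (false, 15, 53), (true, -14, 51),
    (false, 14, 51), (true, -13, 25), (false, 13, 25), (true, -12, 49), (false, 12, 49), (true, -11, 47), (false, 11, 47),
    (true, -10, 23), (false, 10, 23), (true, -9, 45), (false, 9, 45), (true, -8, 43), (false, 8, 43), (true, -7, 21),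
    (false, 7, 21), (true, -6, 41), (false, 6, 41), (true, -5, 41), (false, 5, 41), (true, -4, 21), (false, 4, 21),
    (true, -3, 43), (false, 3, 43), (true, -2, 45), (false, 2, 45), (true, -1, 23), (false, 1, 23), (true, 0, 47),
    (false, 0, 47), (true, 1, 49), (false, -1, 49), (true, 2, 25), (false, -2, 25), (true, 3, 51), (false, -3, 51),
    (true, 4, 53), (false, -4, 53), (true, 5, 27), (false, -5, 27), (true, 6, 55), (false, -6, 55), (true, 7, 57),
    (false, -7, 57), (true, 8, 29), (false, -8, 29), (true, 9, 59), (false, -9, 59), (true, 10, 61), (false, -10, 61),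
    (true, 11, 31), (false, -11, 31), (true, 12, 63), (false, -12, 63), (true, 13, 65), (false, -13, 65), (true, 14, 33),
    (false, -14, 33), (true, 15, 67), (false, -15, 67), (true, 16, 68), (false, -15, 69), (true, 15, 69), (false, -14, 35),
    (true, 14, 35), (false, -13, 71), (true, 13, 71), (false, -12, 73), (true, 12, 73), (false, -11, 37), (true, 11, 37),
    (false, -10, 75), (true, 10, 75), (false, -9, 77), (true, 9, 77), (false, -8, 39), (true, 8, 39), (false, -7, 79),
    (true, 7, 79), (false, -6, 81), (true, 6, 81), (false, -5, 41), (true, 5, 41), (false, -4, 83), (true, 4, 83),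
    (false, -3, 85), (true, 3, 85), (false, -2, 43), (true, 2, 43), (false, -1, 87), (true, 1, 87), (false, 0, 87),
    (true, 0, 87), (false, 1, 43), (true, -1, 43), (false, 2, 85), (true, -2, 85), (false, 3, 83), (true, -3, 83),
    (false, 4, 41), (true, -4, 41), (false, 5, 81), (true, -5, 81), (false, 6, 79), (true, -6, 79), (false, 7, 39),
    (true, -7, 39), (false, 8, 77), (true, -8, 77), (false, 9, 75), (true, -9, 75), (false, 10, 37), (true, -10, 37),
    (false, 11, 73), (true, -11, 73), (false, 12, 71), (true, -12, 71), (false, 13, 35), (true, -13, 35), (false, 14, 69),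
    (true, -14, 69), (false, 15, 67), (true, -15, 67), (false, 16, 33), (true, -16, 33), (false, 17, 65), (true, -17, 65),
    (false, 18, 63), (true, -18, 63), (false, 19, 31), (true, -19, 31), (false, 20, 61), (true, -20, 61), (false, 21, 59),
    (true, -21, 59), (false, 22, 29), (true, -22, 29), (false, 23, 57), (true, -23, 57), (false, 24, 55), (true, -24, 55),
    (false, 25, 27), (true, -25, 27), (false, 26, 53), (true, -26, 53), (false, 27, 51), (true, -27, 51), (false, 28, 25),
    (true, -28, 25), (false, 29, 49), (true, -29, 49), (false, 30, 48), (true, -29, 47), (false, 29, 47), (true, -28, 23),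
    (false, 28, 23), (true, -27, 45), (false, 27, 45), (true, -26, 43), (false, 26, 43), (true, -25, 21), (false, 25, 21),
    (true, -24, 41), (false, 24, 41), (true, -23, 39), (false, 23, 39), (true, -22, 19), (false, 22, 19), (true, -21, 37),
    (false, 21, 37), (true, -20, 37), (false, 20, 37), (true, -19, 19), (false, 19, 19), (true, -18, 39), (false, 18, 39),
    (true, -17, 41), (false, 17, 41), (true, -16, 21), (false, 16, 21), (true, -15, 43), (false, 15, 43), (true, -14, 45),
    (false, 14, 45), (true, -13, 23), (false, 13, 23), (true, -12, 47), (false, 12, 47), (true, -11, 49), (false, 11, 49),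
    (true, -10, 25), (false, 10, 25), (true, -9, 51), (false, 9, 51), (true, -8, 53), (false, 8, 53), (true, -7, 27),
    (false, 7, 27), (true, -6, 55), (false, 6, 55), (true, -5, 55), (false, 5, 55), (true, -4, 27), (false, 4, 27),
    (true, -3, 53), (false, 3, 53), (true, -2, 51), (false, 2, 51), (true, -1, 25), (false, 1, 25), (true, 0, 49),
    (false, 0, 49), (true, 1, 47), (false, -1, 47), (true, 2, 23), (false, -2, 23), (true, 3, 45), (false, -3, 45),
    (true, 4, 43), (false, -4, 43), (true, 5, 21), (false, -5, 21), (true, 6, 41), (false, -6, 41), (true, 7, 39),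
    (false, -7, 39), (true, 8, 19), (false, -8, 19), (true, 9, 37), (false, -9, 37), (true, 10, 35), (false, -10, 35),
    (true, 11, 17), (false, -11, 17), (true, 12, 33), (false, -12, 33), (true, 13, 31), (false, -13, 31), (true, 14, 15),
    (false, -14, 15), (true, 15, 29), (false, -15, 29), (true, 16, 29), (false, -16, 29), (true, 17, 15), (false, -17, 15),
    (true, 18, 31), (false, -18, 31), (true, 19, 33), (false, -19, 33), (true, 20, 17), (false, -20, 17), (true, 21, 35),
    (false, -21, 35), (true, 22, 37), (false, -22, 37), (true, 23, 19), (false, -23, 19), (true, 24, 39), (false, -24, 39),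
    (true, 25, 41), (false, -25, 41), (true, 26, 21), (false, -26, 21), (true, 27, 43), (false, -27, 43), (true, 28, 44),
    (false, -27, 45), (true, 27, 45), (false, -26, 23), (true, 26, 23), (false, -25, 47), (true, 25, 47), (false, -24, 49),
    (true, 24, 49), (false, -23, 25), (true, 23, 25), (false, -22, 51), (true, 22, 51), (false, -21, 53), (true, 21, 53),
    (false, -20, 27), (true, 20, 27), (false, -19, 55), (true, 19, 55), (false, -18, 55), (true, 18, 55), (false, -17, 27),
    (true, 17, 27), (false, -16, 53), (true, 16, 53), (false, -15, 51), (true, 15, 51), (false, -14, 25), (true, 14, 25),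
    (false, -13, 49), (true, 13, 49), (false, -12, 48), (true, 13, 47), (false, -13, 47), (true, 14, 23), (false, -14, 23),
    (true, 15, 45), (false, -15, 45), (true, 16, 43), (false, -16, 43), (true, 17, 21), (false, -17, 21), (true, 18, 41),
    (false, -18, 41), (true, 19, 39), (false, -19, 39), (true, 20, 19), (false, -20, 19), (true, 21, 37), (false, -21, 37),
    (true, 22, 35), (false, -22, 35), (true, 23, 17), (false, -23, 17), (true, 24, 33), (false, -24, 33), (true, 25, 32),
    (false, -24, 31), (true, 24, 31), (false, -23, 15), (true, 23, 15), (false, -22, 29), (true, 22, 29), (false, -21, 27),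
    (true, 21, 27), (false, -20, 13), (true, 20, 13), (false, -19, 25), (true, 19, 25), (false, -18, 23), (true, 18, 23),
    (false, -17, 11), (true, 17, 11), (false, -16, 21), (true, 16, 21), (false, -15, 21), (true, 15, 21), (false, -14, 11),
    (true, 14, 11), (false, -13, 23), (true, 13, 23), (false, -12, 25), (true, 12, 25), (false, -11, 13), (true, 11, 13),
    (false, -10, 27), (true, 10, 27), (false, -9, 29), (true, 9, 29), (false, -8, 15), (true, 8, 15), (false, -7, 31),
    (true, 7, 31), (false, -6, 33), (true, 6, 33), (false, -5, 17), (true, 5, 17), (false, -4, 35), (true, 4, 35),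
    (false, -3, 37), (true, 3, 37), (false, -2, 19), (true, 2, 19), (false, -1, 39), (true, 1, 39), (false, 0, 41),
    (true, 0, 41), (false, 1, 21), (true, -1, 21), (false, 2, 43), (true, -2, 43), (false, 3, 45), (true, -3, 45),
    (false, 4, 23), (true, -4, 23), (false, 5, 47), (true, -5, 47), (false, 6, 47), (true, -6, 47), (false, 7, 23),
    (true, -7, 23), (false, 8, 45), (true, -8, 45), (false, 9, 43), (true, -9, 43), (false, 10, 21), (true, -10, 21),
    (false, 11, 41), (true, -11, 41), (false, 12, 39), (true, -12, 39), (false, 13, 19), (true, -13, 19), (false, 14, 37),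
    (true, -14, 37), (false, 15, 36), (true, -14, 35), (false, 14, 35), (true, -13, 17), (false, 13, 17), (true, -12, 33),
    (false, 12, 33), (true, -11, 31), (false, 11, 31), (true, -10, 15), (false, 10, 15), (true, -9, 29), (false, 9, 29),
    (true, -8, 27), (false, 8, 27), (true, -7, 13), (false, 7, 13), (true, -6, 25), (false, 6, 25), (true, -5, 23),
    (false, 5, 23), (true, -4, 11), (false, 4, 11), (true, -3, 21), (false, 3, 21), (true, -2, 21), (false, 2, 21),
    (true, -1, 11), (false, 1, 11), (true, 0, 23), (false, 0, 23), (true, 1, 25), (false, -1, 25), (true, 2, 13),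
    (false, -2, 13), (true, 3, 27), (false, -3, 27), (true, 4, 29), (false, -4, 29), (true, 5, 15), (false, -5, 15),
    (true, 6, 31), (false, -6, 31), (true, 7, 33), (false, -7, 33), (true, 8, 17), (false, -8, 17), (true, 9, 35),
    (false, -9, 35), (true, 10, 37), (false, -10, 37), (true, 11, 19), (false, -11, 19), (true, 12, 39), (false, -12, 39),
    (true, 13, 41), (false, -13, 41), (true, 14, 21), (false, -14, 21), (true, 15, 43), (false, -15, 43), (true, 16, 45),
    (false, -16, 45), (true, 17, 23), (false, -17, 23), (true, 18, 47), (false, -18, 47), (true, 19, 48), (false, -18, 49),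
    (true, 18, 49), (false, -17, 25), (true, 17, 25), (false, -16, 51), (true, 16, 51), (false, -15, 53), (true, 15, 53),
    (false, -14, 27), (true, 14, 27), (false, -13, 55), (true, 13, 55), (false, -12, 55), (true, 12, 55), (false, -11, 27),
    (true, 11, 27), (false, -10, 53), (true, 10, 53), (false, -9, 51), (true, 9, 51), (false, -8, 25), (true, 8, 25),
    (false, -7, 49), (true, 7, 49), (false, -6, 47), (true, 6, 47), (false, -5, 23), (true, 5, 23), (false, -4, 45),
    (true, 4, 45), (false, -3, 43), (true, 3, 43), (false, -2, 21), (true, 2, 21), (false, -1, 41), (true, 1, 41),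
    (false, 0, 39), (true, 0, 39), (false, 1, 19), (true, -1, 19), (false, 2, 37), (true, -2, 37), (false, 3, 35),
    (true, -3, 35), (false, 4, 17), (true, -4, 17), (false, 5, 33), (true, -5, 33), (false, 6, 33), (true, -6, 33),
    (false, 7, 17), (true, -7, 17), (false, 8, 35), (true, -8, 35), (false, 9, 37), (true, -9, 37), (false, 10, 19),
    (true, -10, 19), (false, 11, 39), (true, -11, 39), (false, 12, 41), (true, -12, 41), (false, 13, 21), (true, -13, 21),
    (false, 14, 43), (true, -14, 43), (false, 15, 45), (true, -15, 45), (false, 16, 23), (true, -16, 23), (false, 17, 47),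
    (true, -17, 47), (false, 18, 48), (true, -17, 49), (false, 17, 49), (true, -16, 25), (false, 16, 25), (true, -15, 51),
    (false, 15, 51), (true, -14, 53), (false, 14, 53), (true, -13, 27), (false, 13, 27), (true, -12, 55), (false, 12, 55),
    (true, -11, 57), (false, 11, 57), (true, -10, 29), (false, 10, 29), (true, -9, 59), (false, 9, 59), (true, -8, 61),
    (false, 8, 61), (true, -7, 31), (false, 7, 31), (true, -6, 63), (false, 6, 63), (true, -5, 63), (false, 5, 63),
    (true, -4, 31), (false, 4, 31), (true, -3, 61), (false, 3, 61), (true, -2, 59), (false, 2, 59), (true, -1, 29),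
    (false, 1, 29), (true, 0, 57), (false, 0, 57), (true, 1, 55), (false, -1, 55), (true, 2, 27), (false, -2, 27),
    (true, 3, 53), (false, -3, 53), (true, 4, 51), (false, -4, 51), (true, 5, 25), (false, -5, 25), (true, 6, 49),
    (false, -6, 49), (true, 7, 47), (false, -7, 47), (true, 8, 23), (false, -8, 23), (true, 9, 45), (false, -9, 45),
    (true, 10, 43), (false, -10, 43), (true, 11, 21), (false, -11, 21), (true, 12, 41), (false, -12, 41), (true, 13, 39),
    (false, -13, 39), (true, 14, 19), (false, -14, 19), (true, 15, 37), (false, -15, 37), (true, 16, 36), (false, -15, 35),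
    (true, 15, 35), (false, -14, 17), (true, 14, 17), (false, -13, 33), (true, 13, 33), (false, -12, 31), (true, 12, 31),
    (false, -11, 15), (true, 11, 15), (false, -10, 29), (true, 10, 29), (false, -9, 27), (true, 9, 27), (false, -8, 13),
    (true, 8, 13), (false, -7, 25), (true, 7, 25), (false, -6, 23), (true, 6, 23), (false, -5, 11), (true, 5, 11),
    (false, -4, 21), (true, 4, 21), (false, -3, 19), (true, 3, 19), (false, -2, 9), (true, 2, 9), (false, -1, 17),
    (true, 1, 17), (false, 0, 15), (true, 0, 15), (false, 1, 7), (true, -1, 7), (false, 2, 13), (true, -2, 13),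
    (false, 3, 11), (true, -3, 11)]

/-- Kinds, keys and ranks. -/
def TJ : List (Bool × ℕ × ℕ) :=
   [(false, 2009005, 279), (true, 1993005, 291), (false, 2011009, 292), (true, 1991009, 302), (false, 2013009, 300), (true, 1989009, 312),
    (false, 2015005, 310), (true, 1987005, 324), (false, 2017011, 322), (true, 1985011, 335), (false, 2019013, 331), (true, 1983013, 344),
    (false, 2021007, 341), (true, 1981007, 357), (false, 2023015, 355), (true, 1979015, 370), (false, 2025017, 363), (true, 1977017, 378),
    (false, 2027009, 372), (true, 1975009, 391), (false, 2029019, 381), (true, 1973019, 404), (false, 2031021, 389), (true, 1971021, 411),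
    (false, 2033011, 399), (true, 1969011, 417), (false, 2035023, 407), (true, 1967023, 425), (false, 2037025, 420), (true, 1965025, 431),
    (false, 2039013, 425), (true, 1963013, 437), (false, 2041027, 429), (true, 1961027, 441), (false, 2043029, 433), (true, 1959029, 446),
    (false, 2045015, 440), (true, 1957015, 453), (false, 2047031, 444), (true, 1955031, 460), (false, 2049033, 448), (true, 1953033, 466),
    (false, 2051017, 453), (true, 1951017, 471), (false, 2053035, 461), (true, 1949035, 476), (false, 2055037, 466), (true, 1947037, 480),
    (false, 2057019, 471), (true, 1945019, 487), (false, 2059039, 475), (true, 1943039, 491), (false, 2061040, 480), (true, 1943041, 490),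
    (false, 2059041, 476), (true, 1945021, 485), (false, 2057021, 472), (true, 1947043, 479), (false, 2055043, 467), (true, 1949045, 473),
    (false, 2053045, 464), (true, 1951023, 469), (false, 2051023, 458), (true, 1953047, 463), (false, 2049047, 450), (true, 1955049, 456),
    (false, 2047049, 446), (true, 1957025, 449), (false, 2045025, 442), (true, 1959051, 443), (false, 2043051, 436), (true, 1961053, 439),
    (false, 2041053, 431), (true, 1963027, 434), (false, 2039027, 427), (true, 1965055, 429), (false, 2037055, 423), (true, 1967055, 420),
    (false, 2035055, 417), (true, 1969027, 413), (false, 2033027, 405), (true, 1971053, 407), (false, 2031053, 396), (true, 1973051, 394),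
    (false, 2029051, 386), (true, 1975025, 382), (false, 2027025, 378), (true, 1977049, 373), (false, 2025049, 369), (true, 1979047, 363),
    (false, 2023047, 359), (true, 1981023, 351), (false, 2021023, 346), (true, 1983045, 339), (false, 2019045, 336), (true, 1985043, 330),
    (false, 2017043, 325), (true, 1987021, 319), (false, 2015021, 314), (true, 1989041, 308), (false, 2013041, 303), (true, 1991041, 297),
    (false, 2011041, 295), (true, 1993021, 288), (false, 2009021, 285), (true, 1995043, 275), (false, 2007043, 271), (true, 1997045, 258),
    (false, 2005045, 263), (true, 1999023, 248), (false, 2003023, 254), (true, 2001047, 240), (false, 2001047, 246), (true, 2003049, 228),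
    (false, 1999049, 236), (true, 2005025, 215), (false, 1997025, 220), (true, 2007051, 205), (false, 1995051, 210), (true, 2009053, 196),
    (false, 1993053, 203), (true, 2011027, 185), (false, 1991027, 191), (true, 2013055, 169), (false, 1989055, 181), (true, 2015057, 160),
    (false, 1987057, 173), (true, 2017029, 147), (false, 1985029, 165), (true, 2019059, 132), (false, 1983059, 153), (true, 2021061, 124),
    (false, 1981061, 144), (true, 2023031, 113), (false, 1979031, 133), (true, 2025063, 104), (false, 1977063, 119), (true, 2027065, 91),
    (false, 1975065, 109), (true, 2029033, 77), (false, 1973033, 91), (true, 2031067, 66), (false, 1971067, 78), (true, 2033068, 53),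
    (false, 1971069, 79), (true, 2031069, 64), (false, 1973035, 92), (true, 2029035, 76), (false, 1975071, 110), (true, 2027071, 88),
    (false, 1977073, 120), (true, 2025073, 103), (false, 1979037, 134), (true, 2023037, 112), (false, 1981075, 145), (true, 2021075, 122),
    (false, 1983077, 154), (true, 2019077, 131), (false, 1985039, 166), (true, 2017039, 145), (false, 1987079, 174), (true, 2015079, 159),
    (false, 1989081, 183), (true, 2013081, 168), (false, 1991041, 193), (true, 2011041, 183), (false, 1993083, 204), (true, 2009083, 195),
    (false, 1995085, 212), (true, 2007085, 203), (false, 1997043, 226), (true, 2005043, 213), (false, 1999087, 238), (true, 2003087, 224),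
    (false, 2001087, 249), (true, 2001087, 234), (false, 2003043, 257), (true, 1999043, 245), (false, 2005085, 267), (true, 1997085, 255),
    (false, 2007083, 278), (true, 1995083, 266), (false, 2009041, 291), (true, 1993041, 282), (false, 2011081, 299), (true, 1991081, 292),
    (false, 2013079, 309), (true, 1989079, 303), (false, 2015039, 321), (true, 1987039, 313), (false, 2017077, 330), (true, 1985077, 325),
    (false, 2019075, 340), (true, 1983075, 336), (false, 2021037, 354), (true, 1981037, 345), (false, 2023073, 362), (true, 1979073, 358),
    (false, 2025071, 371), (true, 1977071, 371), (false, 2027035, 380), (true, 1975035, 380), (false, 2029069, 388), (true, 1973069, 392),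
    (false, 2031067, 398), (true, 1971067, 405), (false, 2033033, 406), (true, 1969033, 412), (false, 2035065, 419), (true, 1967065, 418),
    (false, 2037063, 424), (true, 1965063, 427), (false, 2039031, 428), (true, 1963031, 432), (false, 2041061, 432), (true, 1961061, 438),
    (false, 2043059, 439), (true, 1959059, 442), (false, 2045029, 443), (true, 1957029, 447), (false, 2047057, 447), (true, 1955057, 454),
    (false, 2049055, 452), (true, 1953055, 461), (false, 2051027, 460), (true, 1951027, 467), (false, 2053053, 465), (true, 1949053, 472),
    (false, 2055051, 470), (true, 1947051, 477), (false, 2057025, 474), (true, 1945025, 481), (false, 2059049, 479), (true, 1943049, 488),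
    (false, 2061048, 481), (true, 1943047, 489), (false, 2059047, 478), (true, 1945023, 483), (false, 2057023, 473), (true, 1947045, 478),
    (false, 2055045, 468), (true, 1949043, 474), (false, 2053043, 462), (true, 1951021, 470), (false, 2051021, 455), (true, 1953041, 464),
    (false, 2049041, 449), (true, 1955039, 458), (false, 2047039, 445), (true, 1957019, 450), (false, 2045019, 441), (true, 1959037, 444),
    (false, 2043037, 434), (true, 1961037, 440), (false, 2041037, 430), (true, 1963019, 436), (false, 2039019, 426), (true, 1965039, 430),
    (false, 2037039, 421), (true, 1967041, 424), (false, 2035041, 409), (true, 1969021, 416), (false, 2033021, 402), (true, 1971043, 410),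
    (false, 2031043, 393), (true, 1973045, 395), (false, 2029045, 385), (true, 1975023, 384), (false, 2027023, 377), (true, 1977047, 374),
    (false, 2025047, 368), (true, 1979049, 362), (false, 2023049, 360), (true, 1981025, 349), (false, 2021025, 348), (true, 1983051, 338),
    (false, 2019051, 337), (true, 1985053, 327), (false, 2017053, 327), (true, 1987027, 316), (false, 2015027, 318), (true, 1989055, 306),
    (false, 2013055, 305), (true, 1991055, 294), (false, 2011055, 297), (true, 1993027, 285), (false, 2009027, 288), (true, 1995053, 269),
    (false, 2007053, 274), (true, 1997051, 257), (false, 2005051, 264), (true, 1999025, 247), (false, 2003025, 255), (true, 2001049, 238),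
    (false, 2001049, 247), (true, 2003047, 229), (false, 1999047, 235), (true, 2005023, 216), (false, 1997023, 218), (true, 2007045, 206),
    (false, 1995045, 209), (true, 2009043, 199), (false, 1993043, 200), (true, 2011021, 190), (false, 1991021, 188), (true, 2013041, 176),
    (false, 1989041, 178), (true, 2015039, 163), (false, 1987039, 170), (true, 2017019, 155), (false, 1985019, 161), (true, 2019037, 139),
    (false, 1983037, 150), (true, 2021035, 128), (false, 1981035, 137), (true, 2023017, 119), (false, 1979017, 124), (true, 2025033, 109),
    (false, 1977033, 113), (true, 2027031, 100), (false, 1975031, 96), (true, 2029015, 85), (false, 1973015, 81), (true, 2031029, 74),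
    (false, 1971029, 70), (true, 2033029, 62), (false, 1969029, 59), (true, 2035015, 51), (false, 1967015, 52), (true, 2037031, 45),
    (false, 1965031, 45), (true, 2039033, 37), (false, 1963033, 38), (true, 2041017, 31), (false, 1961017, 32), (true, 2043035, 23),
    (false, 1959035, 28), (true, 2045037, 17), (false, 1957037, 24), (true, 2047019, 13), (false, 1955019, 17), (true, 2049039, 9),
    (false, 1953039, 11), (true, 2051041, 6), (false, 1951041, 6), (true, 2053021, 4), (false, 1949021, 2), (true, 2055043, 2),
    (false, 1947043, 0), (true, 2057044, 0), (false, 1947045, 1), (true, 2055045, 1), (false, 1949023, 5), (true, 2053023, 3),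
    (false, 1951047, 7), (true, 2051047, 5), (false, 1953049, 13), (true, 2049049, 8), (false, 1955025, 19), (true, 2047025, 12),
    (false, 1957051, 26), (true, 2045051, 16), (false, 1959053, 30), (true, 2043053, 21), (false, 1961027, 35), (true, 2041027, 26),
    (false, 1963055, 41), (true, 2039055, 34), (false, 1965055, 50), (true, 2037055, 39), (false, 1967027, 56), (true, 2035027, 47),
    (false, 1969053, 67), (true, 2033053, 55), (false, 1971051, 76), (true, 2031051, 69), (false, 1973025, 89), (true, 2029025, 79),
    (false, 1975049, 105), (true, 2027049, 94), (false, 1977048, 117), (true, 2027047, 96), (false, 1975047, 103), (true, 2029023, 80),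
    (false, 1973023, 87), (true, 2031045, 70), (false, 1971045, 75), (true, 2033043, 59), (false, 1969043, 61), (true, 2035021, 50),
    (false, 1967021, 53), (true, 2037041, 44), (false, 1965041, 47), (true, 2039039, 36), (false, 1963039, 39), (true, 2041019, 29),
    (false, 1961019, 33), (true, 2043037, 22), (false, 1959037, 29), (true, 2045035, 18), (false, 1957035, 23), (true, 2047017, 14),
    (false, 1955017, 15), (true, 2049033, 10), (false, 1953033, 10), (true, 2051032, 7), (false, 1953031, 9), (true, 2049031, 11),
    (false, 1955015, 14), (true, 2047015, 15), (false, 1957029, 21), (true, 2045029, 20), (false, 1959027, 27), (true, 2043027, 25),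
    (false, 1961013, 31), (true, 2041013, 33), (false, 1963025, 36), (true, 2039025, 38), (false, 1965023, 43), (true, 2037023, 46),
    (false, 1967011, 51), (true, 2035011, 52), (false, 1969021, 57), (true, 2033021, 63), (false, 1971021, 68), (true, 2031021, 75),
    (false, 1973011, 80), (true, 2029011, 87), (false, 1975023, 93), (true, 2027023, 102), (false, 1977025, 111), (true, 2025025, 111),
    (false, 1979013, 121), (true, 2023013, 121), (false, 1981027, 135), (true, 2021027, 130), (false, 1983029, 148), (true, 2019029, 142),
    (false, 1985015, 157), (true, 2017015, 157), (false, 1987031, 168), (true, 2015031, 166), (false, 1989033, 177), (true, 2013033, 177),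
    (false, 1991017, 187), (true, 2011017, 191), (false, 1993035, 199), (true, 2009035, 200), (false, 1995037, 207), (true, 2007037, 209),
    (false, 1997019, 215), (true, 2005019, 220), (false, 1999039, 231), (true, 2003039, 231), (false, 2001041, 244), (true, 2001041, 241),
    (false, 2003021, 253), (true, 1999021, 249), (false, 2005043, 262), (true, 1997043, 259), (false, 2007045, 272), (true, 1995045, 272),
    (false, 2009023, 287), (true, 1993023, 287), (false, 2011047, 296), (true, 1991047, 295), (false, 2013047, 304), (true, 1989047, 307),
    (false, 2015023, 316), (true, 1987023, 317), (false, 2017045, 326), (true, 1985045, 329), (false, 2019043, 334), (true, 1983043, 340),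
    (false, 2021021, 344), (true, 1981021, 353), (false, 2023041, 358), (true, 1979041, 364), (false, 2025039, 366), (true, 1977039, 376),
    (false, 2027019, 375), (true, 1975019, 387), (false, 2029037, 383), (true, 1973037, 399), (false, 2031036, 391), (true, 1973035, 402),
    (false, 2029035, 382), (true, 1975017, 390), (false, 2027017, 374), (true, 1977033, 377), (false, 2025033, 365), (true, 1979031, 368),
    (false, 2023031, 356), (true, 1981015, 356), (false, 2021015, 342), (true, 1983029, 342), (false, 2019029, 332), (true, 1985027, 334),
    (false, 2017027, 323), (true, 1987013, 323), (false, 2015013, 312), (true, 1989025, 310), (false, 2013025, 301), (true, 1991023, 301),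
    (false, 2011023, 293), (true, 1993011, 290), (false, 2009011, 282), (true, 1995021, 279), (false, 2007021, 269), (true, 1997021, 264),
    (false, 2005021, 260), (true, 1999011, 252), (false, 2003011, 251), (true, 2001023, 243), (false, 2001023, 241), (true, 2003025, 232),
    (false, 1999025, 229), (true, 2005013, 221), (false, 1997013, 214), (true, 2007027, 211), (false, 1995027, 206), (true, 2009029, 201),
    (false, 1993029, 196), (true, 2011015, 193), (false, 1991015, 186), (true, 2013031, 179), (false, 1989031, 176), (true, 2015033, 164),
    (false, 1987033, 169), (true, 2017017, 156), (false, 1985017, 159), (true, 2019035, 140), (false, 1983035, 149), (true, 2021037, 127),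
    (false, 1981037, 139), (true, 2023019, 118), (false, 1979019, 125), (true, 2025039, 108), (false, 1977039, 114), (true, 2027041, 97),
    (false, 1975041, 102), (true, 2029021, 82), (false, 1973021, 85), (true, 2031043, 71), (false, 1971043, 73), (true, 2033045, 58),
    (false, 1969045, 62), (true, 2035023, 49), (false, 1967023, 54), (true, 2037047, 42), (false, 1965047, 48), (true, 2039048, 35),
    (false, 1965049, 49), (true, 2037049, 40), (false, 1967025, 55), (true, 2035025, 48), (false, 1969051, 64), (true, 2033051, 57),
    (false, 1971053, 77), (true, 2031053, 68), (false, 1973027, 90), (true, 2029027, 78), (false, 1975055, 107), (true, 2027055, 92),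
    (false, 1977055, 118), (true, 2025055, 105), (false, 1979027, 131), (true, 2023027, 114), (false, 1981053, 143), (true, 2021053, 125),
    (false, 1983051, 152), (true, 2019051, 134), (false, 1985025, 163), (true, 2017025, 150), (false, 1987049, 172), (true, 2015049, 161),
    (false, 1989047, 179), (true, 2013047, 173), (false, 1991023, 189), (true, 2011023, 188), (false, 1993045, 201), (true, 2009045, 198),
    (false, 1995043, 208), (true, 2007043, 207), (false, 1997021, 217), (true, 2005021, 218), (false, 1999041, 233), (true, 2003041, 230),
    (false, 2001039, 242), (true, 2001039, 242), (false, 2003019, 252), (true, 1999019, 250), (false, 2005037, 261), (true, 1997037, 261),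
    (false, 2007035, 270), (true, 1995035, 277), (false, 2009017, 283), (true, 1993017, 289), (false, 2011033, 294), (true, 1991033, 299),
    (false, 2013033, 302), (true, 1989033, 309), (false, 2015017, 313), (true, 1987017, 321), (false, 2017035, 324), (true, 1985035, 331),
    (false, 2019037, 333), (true, 1983037, 341), (false, 2021019, 343), (true, 1981019, 355), (false, 2023039, 357), (true, 1979039, 365),
    (false, 2025041, 367), (true, 1977041, 375), (false, 2027021, 376), (true, 1975021, 386), (false, 2029043, 384), (true, 1973043, 396),
    (false, 2031045, 394), (true, 1971045, 409), (false, 2033023, 403), (true, 1969023, 415), (false, 2035047, 412), (true, 1967047, 423),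
    (false, 2037048, 422), (true, 1967049, 422), (false, 2035049, 414), (true, 1969025, 414), (false, 2033025, 404), (true, 1971051, 408),
    (false, 2031051, 395), (true, 1973053, 393), (false, 2029053, 387), (true, 1975027, 381), (false, 2027027, 379), (true, 1977055, 372),
    (false, 2025055, 370), (true, 1979057, 361), (false, 2023057, 361), (true, 1981029, 347), (false, 2021029, 350), (true, 1983059, 337),
    (false, 2019059, 338), (true, 1985061, 326), (false, 2017061, 328), (true, 1987031, 314), (false, 2015031, 320), (true, 1989063, 305),
    (false, 2013063, 307), (true, 1991063, 293), (false, 2011063, 298), (true, 1993031, 284), (false, 2009031, 289), (true, 1995061, 267),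
    (false, 2007061, 276), (true, 1997059, 256), (false, 2005059, 266), (true, 1999029, 246), (false, 2003029, 256), (true, 2001057, 236),
    (false, 2001057, 248), (true, 2003055, 227), (false, 1999055, 237), (true, 2005027, 214), (false, 1997027, 222), (true, 2007053, 204),
    (false, 1995053, 211), (true, 2009051, 197), (false, 1993051, 202), (true, 2011025, 186), (false, 1991025, 190), (true, 2013049, 171),
    (false, 1989049, 180), (true, 2015047, 162), (false, 1987047, 171), (true, 2017023, 153), (false, 1985023, 162), (true, 2019045, 135),
    (false, 1983045, 151), (true, 2021043, 126), (false, 1981043, 141), (true, 2023021, 117), (false, 1979021, 127), (true, 2025041, 106),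
    (false, 1977041, 116), (true, 2027039, 98), (false, 1975039, 101), (true, 2029019, 83), (false, 1973019, 84), (true, 2031037, 72),
    (false, 1971037, 72), (true, 2033036, 60), (false, 1971035, 71), (true, 2031035, 73), (false, 1973017, 83), (true, 2029017, 84),
    (false, 1975033, 99), (true, 2027033, 99), (false, 1977031, 112), (true, 2025031, 110), (false, 1979015, 123), (true, 2023015, 120),
    (false, 1981029, 136), (true, 2021029, 129), (false, 1983027, 146), (true, 2019027, 144), (false, 1985013, 155), (true, 2017013, 158),
    (false, 1987025, 167), (true, 2015025, 167), (false, 1989023, 175), (true, 2013023, 182), (false, 1991011, 184), (true, 2011011, 194),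
    (false, 1993021, 194), (true, 2009021, 202), (false, 1995019, 205), (true, 2007019, 212), (false, 1997009, 213), (true, 2005009, 223),
    (false, 1999017, 227), (true, 2003017, 233), (false, 2001015, 239), (true, 2001015, 244), (false, 2003007, 250), (true, 1999007, 254),
    (false, 2005013, 258), (true, 1997013, 265), (false, 2007011, 268), (true, 1995011, 281)]

theorem eJ : iE 120 mJ zJ = EJ := by decide +kernel

theorem rJ : rpb EJ M0 729 TJ = true := by decide +kernel

end LHJ
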