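import Pool.Agent.LHE.Stmts3
import Pool.Agent.LG.Crt

/-!
# The knot `J`: checkers for the walk and for the path to the final grid
-/

namespace LHJ

open Set LG LH LHE

/-! ### paths of Legendrian moves -/

/-- The list with real coordinates. -/
def cst (L : List (ℕ × ℕ)) : List (ℝ × ℝ) := L.map fun p => ((p.1 : ℝ), (p.2 : ℝ))

/-- `x` is strictly between `a` and `b`. -/
def btb (a b x : ℕ) : Bool := (decide (a < x) && decide (x < b)) || (decide (b < x) && decide (x < a))

/-- Unlinked pairs. -/
def unb (a b c d : ℕ) : Bool :=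
  !(a == c) && !(a == d) && !(b == c) && !(b == d) && (cycb a c b == cycb a d b)

/-- `f` holds for all consecutive elements. -/
def adb (f : ℕ × ℕ → ℕ × ℕ → Bool) : List (ℕ × ℕ) → Bool
  | x :: y :: L => f x y && adb f (y :: L)
  | _ => true

/-- The operations: rotation by `k`, move of the column or of the row of the first entry to `t`,
removal of a short row, removal of a short column. -/
inductive Op | rot (k : ℕ) | col (t : ℕ) | row (t : ℕ) | sr | sc

/-- One operation. -/
def stp : Op → List (ℕ × ℕ) → Option (List (ℕ × ℕ))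
  | .rot k, L => some (L.drop k ++ L.take k)
  | .col t, (c, r) :: x :: B =>
    if (((c, r) :: x :: B).all fun p => !(p.1 == t)) &&
      adb (fun y w => !(btb c t w.1) || unb ((x :: B).getLastD (0, 0)).2 r y.2 w.2)
        ((c, r) :: x :: B)
    then some ((t, r) :: x :: B) else none
  | .row t, (c, r) :: x :: B =>
    if (((c, r) :: x :: B).all fun p => !(p.2 == t)) &&
      adb (fun w y => !(btb r t w.2) || unb c x.1 w.1 y.1) ((c, r) :: x :: B ++ [(c, r)])
    then some ((c, t) :: x :: B) else none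
  | .sr, (c₁, r₁) :: (c₂, r₂) :: x :: B =>
    if (((c₁, r₁) :: (c₂, r₂) :: x :: B).all fun p => !(cycb c₁ p.1 c₂)) &&
        cycb r₁ r₂ ((x :: B).getLastD (0, 0)).2 ||
      (((c₁, r₁) :: (c₂, r₂) :: x :: B).all fun p => !(cycb c₂ p.1 c₁)) &&
        cycb ((x :: B).getLastD (0, 0)).2 r₂ r₁
    then some ((c₂, r₂) :: x :: B) else none
  | .sc, (c₁, r₁) :: (c₂, r₂) :: z :: B =>
    if (((c₁, r₁) :: (c₂, r₂) :: z :: B).all fun p => !(cycb r₁ p.2 r₂)) && cycb z.1 c₁ c₂ ||
      (((c₁, r₁) :: (c₂, r₂) :: z :: B).all fun p => !(cycb r₂ p.2 r₁)) && cycb c₂ c₁ z.1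
    then some ((c₁, r₁) :: z :: B) else none
  | _, _ => none

/-- A sequence of operations. -/
def run : List Op → List (ℕ × ℕ) → Option (List (ℕ × ℕ))
  | [], L => some L
  | o :: os, L => match stp o L with
    | some L' => run os L'
    | none => none

/-- PTH: soundness of the path checker. -/
def Stmt_PTH : Prop :=
  ∀ (os : List Op) (L L' : List (ℕ × ℕ)), Nd (cst L) → run os L = some L' →
    Nd (cst L') ∧ LEq (cst L) (cst L')

/-- NGB: the rotation by the angle `π` in natural numbers. -/
def Stmt_NGB : Prop :=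
  ∀ (B : ℕ) (L : List (ℕ × ℕ)), (∀ p ∈ L, p.1 ≤ B ∧ p.2 ≤ B) → Nd (cst L) →
    LEq (neg (cst L)) (cst (L.map fun p => (B - p.1, B - p.2)))

/-! ### representations of integer lists -/

/-- The entry of an integer entry: kind (`true`: column), first and second coordinate. -/
noncomputable def toEn (e : Bool × ℤ × ℤ) : En :=
  if e.1 then Sum.inl (toLex ((e.2.1 : ℝ), (e.2.2 : ℝ)))
  else Sum.inr (toLex ((e.2.1 : ℝ), (e.2.2 : ℝ)))

/-- The key of an integer position. -/
def kyb (e : ℤ × ℤ) : ℕ := ((e.1 + 1000) * 2000 + (e.2 + 1000)).toNat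

/-- The bounds of an integer position. -/
def bdb (e : ℤ × ℤ) : Bool :=
  decide (-1000 ≤ e.1) && decide (-1000 ≤ e.2) && decide (e.2 < 1000)

/-- The alternating list. -/
def flb (M : List (ℕ × ℕ)) : List (Bool × ℕ) := M.flatMap fun p => [(true, p.1), (false, p.2)]

/-- Kind, key, rank: the keys of the same kind are different, the ranks have the same order (rows)
or the reversed order (columns). -/
def prb : List (Bool × ℕ × ℕ) → Bool
  | [] => true
  | x :: L => (L.all fun y => !(x.1 == y.1) ||
      (if x.1 then (decide (x.2.1 < y.2.1) && decide (y.2.2 < x.2.2)) ||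
        (decide (y.2.1 < x.2.1) && decide (x.2.2 < y.2.2))
      else (decide (x.2.1 < y.2.1) && decide (x.2.2 < y.2.2)) ||
        (decide (y.2.1 < x.2.1) && decide (y.2.2 < x.2.2)))) && prb L

/-- The checker: `T` is the list of kinds, keys and ranks. -/
def rpb (E : List (Bool × ℤ × ℤ)) (M : List (ℕ × ℕ)) (k : ℕ) (T : List (Bool × ℕ × ℕ)) : Bool :=
  (E.all fun e => bdb e.2) && prb T &&
    decide (T.map (fun t => (t.1, t.2.1)) = E.map (fun e => (e.1, kyb e.2))) &&
    decide (T.map (fun t => (t.1, t.2.2)) = (flb M).drop k ++ (flb M).take k)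

/-- RPC: soundness of the checker. -/
def Stmt_RPC : Prop :=
  ∀ (E : List (Bool × ℤ × ℤ)) (M : List (ℕ × ℕ)) (k : ℕ) (T : List (Bool × ℕ × ℕ)),
    rpb E M k T = true → Rp (E.map toEn) (cst M)

/-- The integer entries of the arc `k`. -/
def iEn (m z : ℤ → ℤ) (k : ℤ) : List (Bool × ℤ × ℤ) :=
  (if gd m k then [(true, cs m k, hcd m z k), (false, -cs m k, hcd m z k)]
    else [(false, -cs m k, hcd m z k), (true, cs m k, hcd m z k)]) ++
  if gd m k = gd m (k + 1) then []
  else if gd m k then [(true, co m k, vcd z k)] else [(false, -co m k, vcd z k)]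

/-- The integer entries of a lattice path. -/
def iE (L : ℕ) (m z : ℤ → ℤ) : List (Bool × ℤ × ℤ) :=
  (List.range (3 * L)).flatMap fun k => iEn m z (k : ℤ)

/-- IEN: the entries of the walk of a lattice path. -/
def Stmt_IEN : Prop := ∀ (L : ℕ) (m z : ℤ → ℤ), ents (cPts L m z) = (iE L m z).map toEn

end LHJ
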