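import Pool.Agent.LH.All
import Pool.Agent.LHS.All

/-!
# Knots with nonvanishing invariants are not destabilizable
-/

namespace LHJ

open Set LG LH

/-- Polygons with the same `x` and `y`. -/
theorem emb_of {N : ℕ} (P Q : Pg N) (hx : P.x = Q.x) (hy : P.y = Q.y) (h : Emb P) : Emb Q := by
  have hz : ∀ i, Q.z i = P.z i + (Q.z 0 - P.z 0) := by
    intro i
    induction i using Int.induction_on with
    | zero => ring
    | succ k ih => rw [P.cl, Q.cl, ih, hx, hy]; ring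
    | pred k ih =>
      have h1 := P.cl (-(k : ℤ) - 1)
      have h2 := Q.cl (-(k : ℤ) - 1)
      rw [sub_add_cancel] at h1 h2
      rw [h1, h2, hx, hy] at ih
      linarith
  have hl : ∀ i t, Q.l i t = P.l i t + (Q.z 0 - P.z 0) := by
    intro i t
    unfold Pg.l
    rw [hz i, hx, hy]; ring
  have hc : ∀ e p q, CompE Q e p q → CompE P e p q := by
    intro e p q h'
    refine ⟨h'.le, ?_, ?_, ?_, ?_⟩
    · rw [hx]; exact h'.ins
    · rw [hx]; exact h'.fst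
    · rw [hx]; exact h'.lst
    · rw [hx]; exact h'.one
  refine ⟨?_, ?_, ?_⟩
  · rw [← hx]; exact h.nc
  · intro e p q h'
    have := h.ty e p q (hc e p q h')
    unfold Ty at *
    rwa [hx, hy] at this
  · intro e p q p' q' h1 h2 h3 h4 h5
    have := h.sep e p q p' q' (hc _ _ _ h1) (hc _ _ _ h2) h3 h4
      (by rw [hl, hl] at h5; exact add_right_cancel h5)
    rwa [hy] at this

theorem emb_l {N : ℕ} {P Q : Pg N} (h : EPath P Q) : Emb P := by
  obtain ⟨F, hF, -, -, -, h1, h2, -, -⟩ := h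
  exact emb_of _ _ h1 h2 (hF 0 ⟨le_rfl, zero_le_one⟩)

theorem emb_r {N : ℕ} {P Q : Pg N} (h : EPath P Q) : Emb Q := by
  obtain ⟨F, hF, -, -, -, -, -, h1, h2⟩ := h
  exact emb_of _ _ h1 h2 (hF 1 ⟨zero_le_one, le_rfl⟩)

/-- The walks of polygons joined by a sequence of paths are equivalent. -/
theorem inv_trans {N : ℕ} (hN : 0 < N) {P Q : Pg N} (h : Relation.TransGen EPath P Q) :
    Emb Q ∧ ∀ X X' w w', GoodX P X → GW P X w → GoodX Q X' → GW Q X' w' →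
      WE (lst P w) (lst Q w') := by
  induction h with
  | single h => exact ⟨emb_r h, fun X X' w w' a b c d => inv _ _ _ h X X' w w' a b c d⟩
  | tail _ h ih =>
    refine ⟨emb_r h, fun X X' w w' a b c d => ?_⟩
    obtain ⟨Y, v, hY, hv, -⟩ := p_TEX _ hN (emb_l h) 1 one_pos
    exact p_WEB.trans _ _ _ (ih.2 X Y w v a b hY hv) (inv _ _ _ h Y X' v w' hY hv c d)

/-- A knot whose polygons have nonvanishing invariants is not destabilizable. -/
theorem not_dest (hS : T_S) (Λ : LC.LegKnot) (hJ : ∃ N₀ : ℕ, ∀ N ≥ N₀, ∀ P : Pg N, IsPN Λ N P →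
    ∃ X w, GoodX P X ∧ GW P X w ∧ ∃ M, Rp (lst P w) M ∧ ¬ VL M ∧ ¬ VP M) :
    ¬ LC.Destabilizable Λ := by
  rintro ⟨Λ', Λ'', hst, hiso⟩
  obtain ⟨Λ₁, Λ₂, hst', N₁, h1⟩ := LHS.main Λ Λ' Λ'' hiso hst
  obtain ⟨N₂, h2⟩ := hS Λ₁ Λ₂ hst'
  obtain ⟨N₃, h3⟩ := hJ
  obtain ⟨P, P₁, hP, hP₁, hpp⟩ := h1 (max N₁ (max N₂ (max N₃ 1))) (by omega)
  have hi := inv_trans (by omega) hpp
  obtain ⟨X, w, hX, hw, M, hM, hL, hR⟩ := h3 _ (by omega) P hP
  obtain ⟨X₁, w₁, hX₁, hw₁, M₁, hM₁, hV⟩ := h2 _ (by omega) P₁ hP₁ hi.1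
  have hE := p_WEB.all _ _ M M₁ (hi.2 X X₁ w w₁ hX hw hX₁ hw₁) hM hM₁
  have hQ := p_LEQ _ _ hE
  rcases hV with hV | hV
  · exact hL (hQ.1.2 hV)
  · exact hR (hQ.2.2 hV)

end LHJ
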