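import Pool.Agent.LHJ.Base

/-!
# IEN: the entries of the walk of a lattice path
-/

namespace LHJ

open Set LG LH LHE

theorem IEN.one (m z : ℤ → ℤ) (k : ℤ) :
    (aPt (fun k => (cs m k : ℝ)) (fun k => (co m k : ℝ)) (gd m)
      (fun k => (hcd m z k : ℝ)) (fun k => (vcd z k : ℝ)) k).flatMap ent = (iEn m z k).map toEn := by
  unfold aPt iEn LHE.pass LHE.turn
  cases h1 : gd m k <;> cases h2 : gd m (k + 1) <;>
    simp [ent, toEn, Pt.c, Pt.r]

theorem t_IEN : Stmt_IEN := by
  intro L m z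
  unfold cPts ents aPts iE
  rw [List.flatMap_assoc, List.map_flatMap]
  congr 1
  funext k
  exact IEN.one m z k

end LHJ
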