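import Pool.Agent.LHJ.K0

/-!
# The path, part 2
-/

set_option maxRecDepth 100000

namespace LHJ

/-- Program 7. -/
def O7 : List Op :=
   [.row 195, .rot 307, .sc, .rot 141, .col 21, .rot 306, .sr, .rot 227, .col 54, .rot 305, .sr, .rot 252,
    .row 311, .rot 304, .sc, .rot 80, .col 468, .rot 303, .sr, .rot 232, .col 459, .sr, .rot 75, .row 457,
    .sc, .rot 281, .row 277, .sc, .rot 198, .col 348]

theorem r7 : run O7 M7 = some M8 := by decide +kernel

/-- Program 8. -/
def O8 : List Op :=
   [.sr, .rot 123, .col 457, .rot 298, .sr, .rot 206, .row 156, .rot 297, .sc, .rot 15, .row 401, .rot 296,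
    .sc, .rot 65, .col 419, .rot 295, .sr, .rot 86, .row 58, .rot 294, .sc, .rot 2, .row 94, .rot 293,
    .sc, .rot 148, .sr, .rot 55, .row 397, .sc, .rot 227]

theorem r8 : run O8 M8 = some M9 := by decide +kernel

/-- Program 9. -/
def O9 : List Op :=
   [.col 369, .sr, .rot 72, .sc, .rot 8, .row 410, .sc, .rot 271, .row 418, .sc, .rot 242, .col 383,
    .sr, .rot 120, .col 28, .rot 285, .sr, .rot 255, .row 97, .sc, .rot 10, .row 8, .sc, .rot 167,
    .row 364, .rot 282, .sc, .rot 280, .col 343, .sr, .rot 148, .col 165]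

theorem r9 : run O9 M9 = some M10 := by decide +kernel

/-- Program 10. -/
def O10 : List Op :=
   [.sr, .rot 145, .col 435, .sr, .rot 252, .sc, .rot 27, .col 421, .sr, .rot 130, .col 141, .sr,
    .rot 143, .col 455, .rot 275, .sr, .rot 158, .col 389, .rot 274, .sr, .rot 124, .col 352, .sr, .rot 225,
    .row 306, .rot 272, .sc, .rot 84, .row 290, .sc, .rot 59, .row 3, .sc]

theorem r10 : run O10 M10 = some M11 := by decide +kernel

/-- Program 11. -/
def O11 : List Op :=
   [.rot 198, .row 108, .rot 269, .sc, .rot 188, .sr, .rot 89, .row 225, .sc, .rot 87, .col 86, .sr,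
    .rot 178, .col 146, .rot 265, .sr, .rot 132, .row 160, .sc, .rot 84, .row 240, .rot 263, .sc, .rot 59,
    .sr, .rot 70, .sr, .rot 99, .col 348, .sr, .rot 200, .col 300, .rot 259, .sr]

theorem r11 : run O11 M11 = some M12 := by decide +kernel

/-- Program 12. -/
def O12 : List Op :=
   [.rot 210, .col 27, .rot 258, .sr, .rot 135, .col 143, .sr, .rot 50, .col 90, .rot 256, .sr, .rot 124,
    .col 263, .rot 255, .sr, .rot 86, .col 222, .sr, .rot 1, .col 280, .sr, .rot 184, .row 63, .sc,
    .rot 69, .col 369, .sr, .rot 63, .row 435, .sc, .rot 150, .sc, .rot 163, .row 44, .rot 248, .sc]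

theorem r12 : run O12 M12 = some M13 := by decide +kernel

/-- Program 13. -/
def O13 : List Op :=
   [.rot 204, .col 239, .sr, .rot 9, .row 138, .sc, .rot 218, .sc, .rot 104, .row 140, .sc, .rot 125,
    .col 225, .rot 243, .sr, .rot 126, .col 43, .sr, .rot 119, .col 304, .rot 241, .sr, .rot 83, .row 245,
    .rot 240, .sc, .rot 168, .col 482, .rot 239, .sr, .rot 236, .col 462, .rot 238, .sr, .rot 2, .sr,
    .rot 48, .col 18]

theorem r13 : run O13 M13 = some M14 := by decide +kernel

end LHJ
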