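import Pool.Agent.LHJ.Base

/-!
# Rotation by the angle `π` in natural numbers
-/

namespace LHJ

open Set LG LH LHE

namespace NGB

theorem nd_neg (M : List (ℝ × ℝ)) (h : Nd M) : Nd (neg M) := by
  have h1 : (neg M).map Prod.fst = (M.map Prod.fst).map (fun x => -x) := by
    unfold neg
    rw [List.map_map, List.map_map]
    rfl
  have h2 : (neg M).map Prod.snd = (M.map Prod.snd).map (fun x => -x) := by
    unfold neg
    rw [List.map_map, List.map_map]
    rfl
  refine ⟨?_, ?_⟩
  · rw [h1]
    exact h.1.map neg_injective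
  · rw [h2]
    exact h.2.map neg_injective

end NGB

theorem t_NGB : Stmt_NGB := by
  intro B L hB hnd
  have h := Mv.iso (neg (cst L)) (fun x => (B : ℝ) + x) (fun x => (B : ℝ) + x)
    (NGB.nd_neg _ hnd) (fun p _ q _ hpq => by simpa using hpq) (fun p _ q _ hpq => by simpa using hpq)
  have h2 : (neg (cst L)).map (fun p : ℝ × ℝ => ((B : ℝ) + p.1, (B : ℝ) + p.2)) =
      cst (L.map fun p => (B - p.1, B - p.2)) := by
    unfold neg cst
    rw [List.map_map, List.map_map, List.map_map]
    refine List.map_congr_left fun p hp => ?_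
    obtain ⟨h3, h4⟩ := hB p hp
    simp only [Function.comp]
    rw [Nat.cast_sub h3, Nat.cast_sub h4]
    ext <;> simp [sub_eq_add_neg]
  rw [h2] at h
  exact Relation.EqvGen.rel _ _ h

end LHJ
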