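import Pool.Agent.LHJ.Base

/-!
# PTH: soundness of the path checker
-/

set_option autoImplicit false

namespace LHJ

open Set LG LH LHE

namespace PTH

theorem cycb_iff (a b c : ℕ) : cycb a b c = true ↔ cyc (a : ℝ) b c := by
  unfold cycb cyc
  simp only [Bool.or_eq_true, Bool.and_eq_true, decide_eq_true_eq, Nat.cast_lt, or_assoc]

theorem btb_iff (a b x : ℕ) : btb a b x = true ↔
    ((a : ℝ) < x ∧ (x : ℝ) < b ∨ (b : ℝ) < x ∧ (x : ℝ) < a) := by
  unfold btb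
  simp only [Bool.or_eq_true, Bool.and_eq_true, decide_eq_true_eq, Nat.cast_lt]

theorem unb_imp {a b c d : ℕ} (h : unb a b c d = true) : Unl (a : ℝ) b c d := by
  unfold unb at h
  simp only [Bool.and_eq_true, Bool.not_eq_true', beq_eq_false_iff_ne, beq_iff_eq] at h
  obtain ⟨⟨⟨⟨h1, h2⟩, h3⟩, h4⟩, h5⟩ := h
  refine ⟨?_, ?_, ?_, ?_, ?_⟩
  · exact_mod_cast h1
  · exact_mod_cast h2
  · exact_mod_cast h3
  · exact_mod_cast h4
  · rw [← cycb_iff, ← cycb_iff, h5]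

theorem adb_spec {f : ℕ × ℕ → ℕ × ℕ → Bool} (B₁ B₂ : List (ℕ × ℕ)) (y x : ℕ × ℕ)
    (h : adb f (B₁ ++ y :: x :: B₂) = true) : f y x = true := by
  induction B₁ with
  | nil =>
    have h1 : (f y x && adb f (x :: B₂)) = true := h
    rw [Bool.and_eq_true] at h1
    exact h1.1
  | cons b B₁ ih =>
    apply ih
    cases B₁ with
    | nil =>
      have h1 : (f b y && adb f (y :: x :: B₂)) = true := h
      rw [Bool.and_eq_true] at h1
      exact h1.2
    | cons w B₁ =>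
      have h1 : (f b w && adb f (w :: (B₁ ++ y :: x :: B₂))) = true := h
      rw [Bool.and_eq_true] at h1
      exact h1.2

theorem dec {L : List (ℕ × ℕ)} {B₁ B₂ : List (ℝ × ℝ)} {y x : ℝ × ℝ}
    (h : cst L = B₁ ++ y :: x :: B₂) : ∃ (A₁ A₂ : List (ℕ × ℕ)) (y' x' : ℕ × ℕ),
      L = A₁ ++ y' :: x' :: A₂ ∧ y = ((y'.1 : ℝ), (y'.2 : ℝ)) ∧ x = ((x'.1 : ℝ), (x'.2 : ℝ)) := by
  unfold cst at h
  obtain ⟨l₁, l₂, h1, -, h3⟩ := List.map_eq_append_iff.mp h
  obtain ⟨y', l₃, h4, h5, h6⟩ := List.map_eq_cons_iff.mp h3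
  obtain ⟨x', l₄, h7, h8, -⟩ := List.map_eq_cons_iff.mp h6
  exact ⟨l₁, l₄, y', x', by rw [h1, h4, h7], h5.symm, h8.symm⟩

theorem cst_cons (a b : ℕ) (L : List (ℕ × ℕ)) : cst ((a, b) :: L) = ((a : ℝ), (b : ℝ)) :: cst L :=
  rfl

theorem cst_append (L L' : List (ℕ × ℕ)) : cst (L ++ L') = cst L ++ cst L' := by
  unfold cst
  exact List.map_append

theorem lst (x : ℕ × ℕ) (B : List (ℕ × ℕ)) : ∃ (B0 : List (ℕ × ℕ)) (z : ℕ × ℕ),
    x :: B = B0 ++ [z] ∧ (x :: B).getLastD (0, 0) = z := by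
  have hne : x :: B ≠ [] := List.cons_ne_nil _ _
  refine ⟨(x :: B).dropLast, (x :: B).getLast hne, (List.dropLast_append_getLast hne).symm, ?_⟩
  rw [List.getLastD_eq_getLast?, List.getLast?_eq_some_getLast hne]
  rfl

theorem all_fst {L : List (ℕ × ℕ)} {t : ℕ} (h : (L.all fun p => !(p.1 == t)) = true) :
    (t : ℝ) ∉ (cst L).map Prod.fst := by
  intro hm
  obtain ⟨p, hp, h1⟩ := List.mem_map.mp hm
  obtain ⟨q, hq, h2⟩ := List.mem_map.mp hp
  have h3 := List.all_eq_true.mp h q hq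
  simp only [Bool.not_eq_true', beq_eq_false_iff_ne] at h3
  rw [← h2] at h1
  have h4 : (q.1 : ℝ) = t := h1
  exact h3 (by exact_mod_cast h4)

theorem all_snd {L : List (ℕ × ℕ)} {t : ℕ} (h : (L.all fun p => !(p.2 == t)) = true) :
    (t : ℝ) ∉ (cst L).map Prod.snd := by
  intro hm
  obtain ⟨p, hp, h1⟩ := List.mem_map.mp hm
  obtain ⟨q, hq, h2⟩ := List.mem_map.mp hp
  have h3 := List.all_eq_true.mp h q hq
  simp only [Bool.not_eq_true', beq_eq_false_iff_ne] at h3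
  rw [← h2] at h1
  have h4 : (q.2 : ℝ) = t := h1
  exact h3 (by exact_mod_cast h4)

theorem all_cyc_fst {L : List (ℕ × ℕ)} {a b : ℕ}
    (h : (L.all fun p => !(cycb a p.1 b)) = true) :
    ∀ d ∈ (cst L).map Prod.fst, ¬ cyc (a : ℝ) d b := by
  intro d hd
  obtain ⟨p, hp, h1⟩ := List.mem_map.mp hd
  obtain ⟨q, hq, h2⟩ := List.mem_map.mp hp
  have h3 := List.all_eq_true.mp h q hq
  rw [← h1, ← h2]
  simp only
  rw [← cycb_iff]
  intro h4
  rw [h4] at h3
  exact Bool.noConfusion h3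

theorem all_cyc_snd {L : List (ℕ × ℕ)} {a b : ℕ}
    (h : (L.all fun p => !(cycb a p.2 b)) = true) :
    ∀ d ∈ (cst L).map Prod.snd, ¬ cyc (a : ℝ) d b := by
  intro d hd
  obtain ⟨p, hp, h1⟩ := List.mem_map.mp hd
  obtain ⟨q, hq, h2⟩ := List.mem_map.mp hp
  have h3 := List.all_eq_true.mp h q hq
  rw [← h1, ← h2]
  simp only
  rw [← cycb_iff]
  intro h4
  rw [h4] at h3
  exact Bool.noConfusion h3

theorem nd_tail {a : ℝ × ℝ} {L : List (ℝ × ℝ)} (h : Nd (a :: L)) : Nd L :=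
  ⟨(List.nodup_cons.mp h.1).2, (List.nodup_cons.mp h.2).2⟩

theorem nd_skip {a b : ℝ × ℝ} {L : List (ℝ × ℝ)} (h : Nd (a :: b :: L)) : Nd (a :: L) := by
  refine ⟨List.Nodup.sublist ?_ h.1, List.Nodup.sublist ?_ h.2⟩
  · exact List.Sublist.map _ (List.Sublist.cons_cons _ (List.sublist_cons_self _ _))
  · exact List.Sublist.map _ (List.Sublist.cons_cons _ (List.sublist_cons_self _ _))

theorem sound_col {c r t : ℕ} {x : ℕ × ℕ} {B L' : List (ℕ × ℕ)}
    (hN : Nd (cst ((c, r) :: x :: B))) (h : stp (.col t) ((c, r) :: x :: B) = some L') :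
    Nd (cst L') ∧ LEq (cst ((c, r) :: x :: B)) (cst L') := by
  obtain ⟨B0, z, h1, h2⟩ := lst x B
  change (if _ then _ else none) = some L' at h
  split_ifs at h with hc
  have h' := Option.some.inj h
  rw [Bool.and_eq_true] at hc
  obtain ⟨hc1, hc2⟩ := hc
  have ht := all_fst hc1
  rw [← h']
  rw [h2] at hc2
  rw [h1] at hN hc2 ht ⊢
  constructor
  · refine ⟨?_, hN.2⟩
    have ht2 : (t : ℝ) ∉ (cst (B0 ++ [z])).map Prod.fst := fun hm =>
      ht (List.mem_cons_of_mem _ hm)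
    exact List.nodup_cons.mpr ⟨ht2, (List.nodup_cons.mp hN.1).2⟩
  · have e : cst (B0 ++ [z]) = cst B0 ++ [((z.1 : ℝ), (z.2 : ℝ))] := cst_append _ _
    refine Relation.EqvGen.rel _ _ ?_
    rw [cst_cons, cst_cons]
    rw [cst_cons] at hN ht
    rw [e] at hN ht ⊢
    refine Mv.col _ _ _ _ _ hN ht ?_
    intro B₁ B₂ y x' hd hb
    rw [← e, ← cst_cons] at hd
    obtain ⟨A₁, A₂, y', x'', h3, h4, h5⟩ := dec hd
    rw [h3] at hc2
    have h6 := adb_spec _ _ _ _ hc2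
    rw [h5] at hb
    have h7 := (btb_iff c t x''.1).mpr hb
    rw [h7, Bool.not_true, Bool.false_or] at h6
    rw [h4, h5]
    exact unb_imp h6

theorem sound_row {c r t : ℕ} {x : ℕ × ℕ} {B L' : List (ℕ × ℕ)}
    (hN : Nd (cst ((c, r) :: x :: B))) (h : stp (.row t) ((c, r) :: x :: B) = some L') :
    Nd (cst L') ∧ LEq (cst ((c, r) :: x :: B)) (cst L') := by
  change (if _ then _ else none) = some L' at h
  split_ifs at h with hc
  have h' := Option.some.inj h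
  rw [Bool.and_eq_true] at hc
  obtain ⟨hc1, hc2⟩ := hc
  have ht := all_snd hc1
  rw [← h']
  constructor
  · refine ⟨hN.1, ?_⟩
    have ht2 : (t : ℝ) ∉ (cst (x :: B)).map Prod.snd := fun hm =>
      ht (List.mem_cons_of_mem _ hm)
    exact List.nodup_cons.mpr ⟨ht2, (List.nodup_cons.mp hN.2).2⟩
  · refine Relation.EqvGen.rel _ _ ?_
    refine Mv.row _ _ _ _ _ hN ht ?_
    intro B₁ B₂ x' y hd hb
    have e : cst ((c, r) :: x :: B ++ [(c, r)]) = ((c : ℝ), (r : ℝ)) :: ((x.1 : ℝ), (x.2 : ℝ)) ::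
        cst B ++ [((c : ℝ), (r : ℝ))] := by
      rw [cst_append]
      rfl
    have hd' : cst ((c, r) :: x :: B ++ [(c, r)]) = B₁ ++ x' :: y :: B₂ := e.trans hd
    obtain ⟨A₁, A₂, y', x'', h3, h4, h5⟩ := dec hd'
    rw [h3] at hc2
    have h6 := adb_spec _ _ _ _ hc2
    rw [h4] at hb
    have h7 := (btb_iff r t y'.2).mpr hb
    rw [h7, Bool.not_true, Bool.false_or] at h6
    rw [h4, h5]
    exact unb_imp h6

theorem sound_sr {c₁ r₁ c₂ r₂ : ℕ} {x : ℕ × ℕ} {B L' : List (ℕ × ℕ)}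
    (hN : Nd (cst ((c₁, r₁) :: (c₂, r₂) :: x :: B)))
    (h : stp .sr ((c₁, r₁) :: (c₂, r₂) :: x :: B) = some L') :
    Nd (cst L') ∧ LEq (cst ((c₁, r₁) :: (c₂, r₂) :: x :: B)) (cst L') := by
  obtain ⟨B0, z, h1, h2⟩ := lst x B
  change (if _ then _ else none) = some L' at h
  split_ifs at h with hc
  have h' := Option.some.inj h
  rw [← h']
  refine ⟨nd_tail hN, ?_⟩
  rw [h2] at hc
  rw [h1] at hN hc ⊢
  have e : cst (B0 ++ [z]) = cst B0 ++ [((z.1 : ℝ), (z.2 : ℝ))] := cst_append _ _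
  refine Relation.EqvGen.rel _ _ ?_
  have ha : (∀ d ∈ (cst ((c₁, r₁) :: (c₂, r₂) :: (B0 ++ [z]))).map Prod.fst, ¬ cyc (c₁ : ℝ) d c₂) ∧
        cyc (r₁ : ℝ) r₂ z.2 ∨
      (∀ d ∈ (cst ((c₁, r₁) :: (c₂, r₂) :: (B0 ++ [z]))).map Prod.fst, ¬ cyc (c₂ : ℝ) d c₁) ∧
        cyc (z.2 : ℝ) r₂ r₁ := by
    rw [Bool.or_eq_true, Bool.and_eq_true, Bool.and_eq_true] at hc
    rcases hc with ⟨a1, a2⟩ | ⟨a1, a2⟩
    · exact Or.inl ⟨all_cyc_fst a1, (cycb_iff _ _ _).mp a2⟩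
    · exact Or.inr ⟨all_cyc_fst a1, (cycb_iff _ _ _).mp a2⟩
  rw [cst_cons, cst_cons, e] at hN ha ⊢
  exact Mv.srow _ _ _ _ _ _ hN ha

theorem sound_sc {c₁ r₁ c₂ r₂ : ℕ} {z : ℕ × ℕ} {B L' : List (ℕ × ℕ)}
    (hN : Nd (cst ((c₁, r₁) :: (c₂, r₂) :: z :: B)))
    (h : stp .sc ((c₁, r₁) :: (c₂, r₂) :: z :: B) = some L') :
    Nd (cst L') ∧ LEq (cst ((c₁, r₁) :: (c₂, r₂) :: z :: B)) (cst L') := by
  change (if _ then _ else none) = some L' at h
  split_ifs at h with hc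
  have h' := Option.some.inj h
  rw [← h']
  refine ⟨nd_skip hN, ?_⟩
  refine Relation.EqvGen.rel _ _ ?_
  have ha : (∀ d ∈ (cst ((c₁, r₁) :: (c₂, r₂) :: z :: B)).map Prod.snd, ¬ cyc (r₁ : ℝ) d r₂) ∧
        cyc (z.1 : ℝ) c₁ c₂ ∨
      (∀ d ∈ (cst ((c₁, r₁) :: (c₂, r₂) :: z :: B)).map Prod.snd, ¬ cyc (r₂ : ℝ) d r₁) ∧
        cyc (c₂ : ℝ) c₁ z.1 := by
    rw [Bool.or_eq_true, Bool.and_eq_true, Bool.and_eq_true] at hc
    rcases hc with ⟨a1, a2⟩ | ⟨a1, a2⟩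
    · exact Or.inl ⟨all_cyc_snd a1, (cycb_iff _ _ _).mp a2⟩
    · exact Or.inr ⟨all_cyc_snd a1, (cycb_iff _ _ _).mp a2⟩
  exact Mv.scol _ _ _ _ _ _ hN ha

theorem sound (o : Op) (L L' : List (ℕ × ℕ)) (hN : Nd (cst L)) (h : stp o L = some L') :
    Nd (cst L') ∧ LEq (cst L) (cst L') := by
  match o, L, hN, h with
  | .rot k, L, hN, h =>
    have h' : L.drop k ++ L.take k = L' := Option.some.inj h
    rw [← h', cst_append]
    have e : cst L = cst (L.take k) ++ cst (L.drop k) := by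
      rw [← cst_append, List.take_append_drop]
    rw [e] at hN ⊢
    constructor
    · refine ⟨?_, ?_⟩
      · exact (List.Perm.map _ List.perm_append_comm).nodup_iff.mp hN.1
      · exact (List.Perm.map _ List.perm_append_comm).nodup_iff.mp hN.2
    · exact Relation.EqvGen.rel _ _ (Mv.rot _ _)
  | .col t, (c, r) :: x :: B, hN, h => exact sound_col hN h
  | .row t, (c, r) :: x :: B, hN, h => exact sound_row hN h
  | .sr, (c₁, r₁) :: (c₂, r₂) :: x :: B, hN, h => exact sound_sr hN h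
  | .sc, (c₁, r₁) :: (c₂, r₂) :: z :: B, hN, h => exact sound_sc hN h
  | .col t, [], hN, h => exact absurd h (by simp [stp])
  | .col t, [_], hN, h => exact absurd h (by simp [stp])
  | .row t, [], hN, h => exact absurd h (by simp [stp])
  | .row t, [_], hN, h => exact absurd h (by simp [stp])
  | .sr, [], hN, h => exact absurd h (by simp [stp])
  | .sr, [_], hN, h => exact absurd h (by simp [stp])
  | .sr, [_, _], hN, h => exact absurd h (by simp [stp])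
  | .sc, [], hN, h => exact absurd h (by simp [stp])
  | .sc, [_], hN, h => exact absurd h (by simp [stp])
  | .sc, [_, _], hN, h => exact absurd h (by simp [stp])

end PTH

theorem t_PTH : Stmt_PTH := by
  intro os
  induction os with
  | nil =>
    intro L L' hN h
    have h' : L = L' := Option.some.inj h
    rw [← h']
    exact ⟨hN, Relation.EqvGen.refl _⟩
  | cons o os ih =>
    intro L L' hN h
    unfold run at h
    cases hs : stp o L with
    | none =>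
      rw [hs] at h
      have h2 : (none : Option (List (ℕ × ℕ))) = some L' := h
      exact nomatch h2
    | some L₁ =>
      rw [hs] at h
      obtain ⟨h1, h2⟩ := PTH.sound o L L₁ hN hs
      obtain ⟨h3, h4⟩ := ih L₁ L' h1 h
      exact ⟨h3, Relation.EqvGen.trans _ _ _ h2 h4⟩

end LHJ
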