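import Pool.Agent.LHJ.K0

/-!
# The certificates
-/

set_option maxRecDepth 100000

namespace LHJ

open LG

/-- The final grid, rotated by the angle `π`. -/
def Mn : List (ℕ × ℕ) :=
   [(283, 414), (430, 460), (293, 185), (100, 371), (399, 415), (432, 370), (103, 149), (365, 385), (34, 47), (226, 254), (439, 41), (74, 220)]

/-- The cocycle for `λ⁻`. -/
def SM : List (List ℕ) :=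
   [[0, 1, 2, 3, 4, 5, 6, 7, 8, 9, 10, 11], [3, 1, 2, 7, 4, 5, 6, 0, 8, 9, 10, 11],
    [6, 1, 0, 3, 4, 5, 2, 7, 8, 9, 10, 11], [6, 1, 3, 7, 4, 5, 2, 0, 8, 9, 10, 11],
    [6, 1, 0, 3, 4, 5, 11, 7, 2, 9, 10, 8], [6, 1, 3, 7, 4, 5, 11, 0, 2, 9, 10, 8],
    [6, 1, 0, 8, 4, 3, 11, 7, 2, 9, 10, 5], [6, 1, 9, 8, 4, 5, 11, 0, 2, 3, 10, 7],
    [6, 1, 9, 8, 4, 3, 11, 0, 2, 7, 10, 5], [6, 1, 0, 8, 4, 7, 11, 9, 2, 3, 10, 5],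
    [6, 9, 1, 8, 4, 7, 11, 0, 2, 3, 10, 5], [6, 1, 4, 8, 9, 7, 11, 0, 2, 3, 10, 5],
    [1, 9, 2, 8, 4, 7, 11, 0, 6, 3, 10, 5], [1, 9, 2, 11, 4, 7, 6, 0, 8, 3, 10, 5],
    [1, 9, 2, 3, 4, 7, 6, 0, 8, 5, 10, 11], [1, 7, 2, 3, 4, 5, 6, 0, 8, 9, 10, 11]]

/-- The cocycle for `λ⁺`. -/
def SN : List (List ℕ) :=
   [[0, 1, 2, 3, 4, 5, 6, 7, 8, 9, 10, 11], [7, 1, 2, 3, 0, 5, 6, 4, 8, 9, 10, 11],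
    [0, 1, 2, 5, 4, 10, 6, 7, 8, 9, 3, 11], [2, 1, 10, 3, 4, 5, 6, 7, 8, 9, 0, 11],
    [7, 1, 2, 5, 0, 10, 6, 4, 8, 9, 3, 11], [0, 1, 2, 9, 4, 10, 6, 5, 8, 7, 3, 11],
    [5, 1, 10, 3, 4, 9, 6, 7, 8, 2, 0, 11], [5, 1, 2, 9, 0, 10, 6, 4, 8, 7, 3, 11],
    [0, 1, 6, 9, 4, 10, 7, 5, 8, 2, 3, 11], [5, 1, 8, 3, 4, 10, 6, 7, 9, 2, 0, 11],
    [5, 1, 10, 9, 4, 11, 6, 7, 8, 2, 0, 3], [5, 1, 6, 9, 0, 10, 7, 4, 8, 2, 3, 11],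
    [0, 1, 8, 9, 4, 10, 7, 5, 11, 2, 3, 6], [0, 1, 10, 9, 4, 11, 7, 5, 8, 2, 3, 6],
    [5, 1, 8, 9, 4, 10, 6, 7, 11, 2, 0, 3], [5, 1, 8, 9, 0, 10, 7, 4, 11, 2, 3, 6],
    [5, 1, 10, 9, 0, 11, 7, 4, 8, 2, 3, 6], [7, 1, 10, 9, 4, 5, 0, 11, 8, 2, 3, 6]]

theorem sM : chkb M25 SM = true := by decide +kernel

theorem sN : chkb Mn SN = true := by decide +kernel

end LHJ
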