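import Pool.Agent.LHJ.K1
import Pool.Agent.LHJ.K2
import Pool.Agent.LHJ.K3
import Pool.Agent.LHJ.K4
import Pool.Agent.LHJ.S0
import Pool.Agent.LHJ.PTH
import Pool.Agent.LHJ.NGB
import Pool.Agent.LG.CRT
import Pool.Agent.LG.All

/-!
# The list `M0` has nonvanishing invariants
-/

set_option maxRecDepth 100000

namespace LHJ

open LG

theorem nM0 : (M0.map Prod.fst).Nodup ∧ (M0.map Prod.snd).Nodup := by decide +kernel

theorem nM : Nd (cst M0) := by
  unfold Nd cst
  constructor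
  · have := nM0.1.map (Nat.cast_injective (R := ℝ))
    simpa [List.map_map, Function.comp_def] using this
  · have := nM0.2.map (Nat.cast_injective (R := ℝ))
    simpa [List.map_map, Function.comp_def] using this

theorem st {A B : List (ℕ × ℕ)} {os : List Op} (r : run os A = some B)
    (h : Nd (cst A) ∧ LEq (cst M0) (cst A)) : Nd (cst B) ∧ LEq (cst M0) (cst B) := by
  have := t_PTH os A B h.1 r
  exact ⟨this.1, Relation.EqvGen.trans _ _ _ h.2 this.2⟩

theorem lM : Nd (cst M25) ∧ LEq (cst M0) (cst M25) :=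
  st r24 <| st r23 <| st r22 <| st r21 <| st r20 <| st r19 <| st r18 <| st r17 <| st r16 <|
  st r15 <| st r14 <| st r13 <| st r12 <| st r11 <| st r10 <| st r9 <| st r8 <| st r7 <|
  st r6 <| st r5 <| st r4 <| st r3 <| st r2 <| st r1 <| st r0 ⟨nM, Relation.EqvGen.refl _⟩

theorem mn : (M25.map fun p => (500 - p.1, 500 - p.2)) = Mn := by decide +kernel

theorem bn : ∀ p ∈ M25, p.1 ≤ 500 ∧ p.2 ≤ 500 := by decide +kernel

/-- Both invariants of `M0` do not vanish. -/
theorem vJ : ¬ VL (cst M0) ∧ ¬ VP (cst M0) := by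
  have h := p_LEQ _ _ lM.2
  refine ⟨fun h' => t_CRT M25 SM sM (h.1.1 h'), fun h' => ?_⟩
  have h2 : VL (neg (cst M25)) := h.2.1 h'
  have h3 := (p_LEQ _ _ (t_NGB 500 M25 bn lM.1)).1.1 h2
  rw [mn] at h3
  exact t_CRT Mn SN sN h3

end LHJ
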