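import Pool.Agent.LHJ.Base

/-!
# RPC: soundness of the checker for representations
-/

namespace LHJ

open Set LG LH LHE

namespace RPC

/-- The relation which the checker `prb` verifies for all pairs. -/
def Rl (x y : Bool × ℕ × ℕ) : Prop :=
  x.1 = y.1 →
    (x.1 = true → (x.2.1 < y.2.1 ∧ y.2.2 < x.2.2) ∨ (y.2.1 < x.2.1 ∧ x.2.2 < y.2.2)) ∧
    (x.1 = false → (x.2.1 < y.2.1 ∧ x.2.2 < y.2.2) ∨ (y.2.1 < x.2.1 ∧ y.2.2 < x.2.2))

theorem Rl_symm (x y : Bool × ℕ × ℕ) (h : Rl x y) : Rl y x := by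
  intro hxy
  obtain ⟨h1, h2⟩ := h hxy.symm
  refine ⟨fun h3 => ?_, fun h3 => ?_⟩
  · exact (h1 (hxy.symm.trans h3)).symm
  · exact (h2 (hxy.symm.trans h3)).symm

theorem prb_pair (L : List (Bool × ℕ × ℕ)) (h : prb L = true) : L.Pairwise Rl := by
  induction L with
  | nil => exact List.Pairwise.nil
  | cons x L ih =>
    unfold prb at h
    rw [Bool.and_eq_true] at h
    obtain ⟨h1, h2⟩ := h
    rw [List.pairwise_cons]
    refine ⟨fun y hy => ?_, ih h2⟩
    rw [List.all_eq_true] at h1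
    have h3 := h1 y hy
    intro hxy
    rcases x with ⟨a, u, v⟩
    rcases y with ⟨b, u', v'⟩
    have hab : a = b := hxy
    subst hab
    cases a
    · refine ⟨fun h => absurd h (by simp), fun _ => ?_⟩
      simpa using h3
    · refine ⟨fun _ => ?_, fun h => absurd h (by simp)⟩
      simpa using h3

theorem kyb_lt (e e' : ℤ × ℤ) (h : bdb e = true) (h' : bdb e' = true)
    (hl : e.1 < e'.1 ∨ (e.1 = e'.1 ∧ e.2 < e'.2)) : kyb e < kyb e' := by
  unfold bdb at h h'
  simp only [Bool.and_eq_true, decide_eq_true_eq] at h h'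
  unfold kyb
  omega

theorem toEn_inj (e e' : Bool × ℤ × ℤ) (h : toEn e = toEn e') : e = e' := by
  rcases e with ⟨a, u, v⟩
  rcases e' with ⟨b, u', v'⟩
  unfold toEn at h
  cases a <;> cases b
  · simp only [Bool.false_eq_true, if_false, Sum.inr.injEq] at h
    have h1 : ((u : ℝ), (v : ℝ)) = ((u' : ℝ), (v' : ℝ)) := toLex_inj.1 h
    rw [Prod.mk.injEq, Int.cast_inj, Int.cast_inj] at h1
    rw [h1.1, h1.2]
  · simp at h
  · simp at h
  · simp only [if_true, Sum.inl.injEq] at h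
    have h1 : ((u : ℝ), (v : ℝ)) = ((u' : ℝ), (v' : ℝ)) := toLex_inj.1 h
    rw [Prod.mk.injEq, Int.cast_inj, Int.cast_inj] at h1
    rw [h1.1, h1.2]

theorem lx (u v u' v' : ℤ) (h : toLex ((u : ℝ), (v : ℝ)) < toLex ((u' : ℝ), (v' : ℝ))) :
    u < u' ∨ (u = u' ∧ v < v') := by
  rw [Prod.Lex.toLex_lt_toLex] at h
  rcases h with h | ⟨h, h2⟩
  · exact Or.inl (Int.cast_lt.1 h)
  · exact Or.inr ⟨Int.cast_injective h, Int.cast_lt.1 h2⟩

theorem toEn_inl (e : Bool × ℤ × ℤ) (q : Q) (h : toEn e = Sum.inl q) :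
    e.1 = true ∧ q = toLex ((e.2.1 : ℝ), (e.2.2 : ℝ)) := by
  rcases e with ⟨a, u, v⟩
  unfold toEn at h
  cases a
  · simp at h
  · simp only [if_true, Sum.inl.injEq] at h
    exact ⟨rfl, h.symm⟩

theorem toEn_inr (e : Bool × ℤ × ℤ) (q : Q) (h : toEn e = Sum.inr q) :
    e.1 = false ∧ q = toLex ((e.2.1 : ℝ), (e.2.2 : ℝ)) := by
  rcases e with ⟨a, u, v⟩
  unfold toEn at h
  cases a
  · simp only [Bool.false_eq_true, if_false, Sum.inr.injEq] at h
    exact ⟨rfl, h.symm⟩
  · simp at h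

/-- The value at an entry of the combined list. -/
noncomputable def val (Z : List ((Bool × ℤ × ℤ) × (Bool × ℕ × ℕ))) (w : En) : ℝ :=
  open Classical in
  if h : ∃ z ∈ Z, toEn z.1 = w then ((h.choose.2.2.2 : ℕ) : ℝ) else 0

theorem val_eq (Z : List ((Bool × ℤ × ℤ) × (Bool × ℕ × ℕ)))
    (hn : (Z.map fun z => toEn z.1).Nodup) (z : (Bool × ℤ × ℤ) × (Bool × ℕ × ℕ)) (hz : z ∈ Z) :
    val Z (toEn z.1) = (z.2.2.2 : ℝ) := by
  have h : ∃ z' ∈ Z, toEn z'.1 = toEn z.1 := ⟨z, hz, rfl⟩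
  unfold val
  rw [dif_pos h]
  have h1 := h.choose_spec
  have h2 : h.choose = z := List.inj_on_of_nodup_map hn h1.1 hz h1.2
  rw [h2]

/-- The number with its kind as an entry. -/
def en (p : Bool × ℕ) : ℝ ⊕ ℝ := if p.1 then Sum.inl (p.2 : ℝ) else Sum.inr (p.2 : ℝ)

theorem flb_fl (M : List (ℕ × ℕ)) : (flb M).map en = fl (cst M) := by
  induction M with
  | nil => rfl
  | cons p M ih =>
    have h1 : flb (p :: M) = (true, p.1) :: (false, p.2) :: flb M := rfl
    have h2 : fl (cst (p :: M)) = Sum.inl (p.1 : ℝ) :: Sum.inr (p.2 : ℝ) :: fl (cst M) := rfl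
    rw [h1, h2, List.map_cons, List.map_cons, ih]
    rfl

theorem rot {α : Type*} (L : List α) (k : ℕ) : L.IsRotated (L.drop k ++ L.take k) := by
  have h : (L.take k ++ L.drop k).IsRotated (L.drop k ++ L.take k) := List.isRotated_append
  rwa [List.take_append_drop] at h

theorem main (E : List (Bool × ℤ × ℤ)) (M : List (ℕ × ℕ)) (k : ℕ) (T : List (Bool × ℕ × ℕ))
    (h : rpb E M k T = true) : Rp (E.map toEn) (cst M) := by
  unfold rpb at h
  simp only [Bool.and_eq_true, decide_eq_true_eq] at h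
  obtain ⟨⟨⟨hb, hp⟩, hk⟩, hr⟩ := h
  rw [List.all_eq_true] at hb
  have hpw := prb_pair T hp
  have hlen : T.length = E.length := by
    have := congrArg List.length hk
    simpa using this
  obtain ⟨Z, hZE, hZT⟩ : ∃ Z : List ((Bool × ℤ × ℤ) × (Bool × ℕ × ℕ)),
      Z.map Prod.fst = E ∧ Z.map Prod.snd = T :=
    ⟨E.zip T, List.map_fst_zip (by omega), List.map_snd_zip (by omega)⟩
  -- the properties of the elements of `Z`
  have hkk : ∀ z ∈ Z, z.2.1 = z.1.1 ∧ z.2.2.1 = kyb z.1.2 := by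
    rw [← hZE, ← hZT, List.map_map, List.map_map] at hk
    rw [List.map_inj_left] at hk
    intro z hz
    have := hk z hz
    simp only [Function.comp, Prod.mk.injEq] at this
    exact this
  have hbd : ∀ z ∈ Z, bdb z.1.2 = true := by
    intro z hz
    apply hb
    rw [← hZE]
    exact List.mem_map.2 ⟨z, hz, rfl⟩
  have hZp : Z.Pairwise fun z z' => Rl z.2 z'.2 := by
    rw [← hZT, List.pairwise_map] at hpw
    exact hpw
  have hW : E.map toEn = Z.map fun z => toEn z.1 := by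
    rw [← hZE, List.map_map]
    rfl
  have hn : (Z.map fun z => toEn z.1).Nodup := by
    unfold List.Nodup
    rw [List.pairwise_map]
    refine List.Pairwise.imp_of_mem ?_ hZp
    intro a b ha hb' hab he
    have h1 := toEn_inj _ _ he
    have h2 := hkk a ha
    have h3 := hkk b hb'
    have h4 : a.2.1 = b.2.1 := by rw [h2.1, h3.1, h1]
    have h5 : a.2.2.1 = b.2.2.1 := by rw [h2.2, h3.2, h1]
    obtain ⟨h6, h7⟩ := hab h4
    cases h8 : a.2.1
    · rcases h7 h8 with h9 | h9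
      · omega
      · omega
    · rcases h6 h8 with h9 | h9
      · omega
      · omega
  have hne : ∀ z ∈ Z, ∀ z' ∈ Z, z ≠ z' → Rl z.2 z'.2 := by
    intro z hz z' hz' hzz
    have hfl : Z.Pairwise (flip fun z z' : (Bool × ℤ × ℤ) × (Bool × ℕ × ℕ) =>
        z ≠ z' → Rl z.2 z'.2) := by
      refine List.Pairwise.imp ?_ hZp
      intro a b hab _
      exact Rl_symm _ _ hab
    have hf : Z.Pairwise fun z z' : (Bool × ℤ × ℤ) × (Bool × ℕ × ℕ) =>
        z ≠ z' → Rl z.2 z'.2 := by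
      refine List.Pairwise.imp ?_ hZp
      intro a b hab _
      exact hab
    exact List.Pairwise.forall_of_forall_of_flip (R := fun z z' => z ≠ z' → Rl z.2 z'.2)
      (fun x _ hx => absurd rfl hx) hf hfl hz hz' hzz
  have hcm : ∀ z ∈ Z, ∀ z' ∈ Z, z.1.1 = z'.1.1 →
      (z.1.2.1 < z'.1.2.1 ∨ (z.1.2.1 = z'.1.2.1 ∧ z.1.2.2 < z'.1.2.2)) →
      (z.1.1 = true → z'.2.2.2 < z.2.2.2) ∧ (z.1.1 = false → z.2.2.2 < z'.2.2.2) := by
    intro z hz z' hz' hkd hlt
    have h1 := kyb_lt _ _ (hbd z hz) (hbd z' hz') hlt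
    have h2 := hkk z hz
    have h3 := hkk z' hz'
    have h4 : z ≠ z' := by
      intro h
      rw [h] at h1
      exact lt_irrefl _ h1
    obtain ⟨h5, h6⟩ := hne z hz z' hz' h4 (by rw [h2.1, h3.1, hkd])
    refine ⟨fun h => ?_, fun h => ?_⟩
    · rcases h5 (by rw [h2.1, h]) with h7 | h7
      · exact h7.2
      · rw [h2.2, h3.2] at h7
        omega
    · rcases h6 (by rw [h2.1, h]) with h7 | h7
      · exact h7.2
      · rw [h2.2, h3.2] at h7
        omega
  refine ⟨by rw [hW]; exact hn, fun q => val Z (Sum.inl q), fun q => val Z (Sum.inr q), ?_, ?_, ?_⟩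
  · intro a b ha hb' hab
    rw [hW, List.mem_map] at ha hb'
    obtain ⟨z, hz, hza⟩ := ha
    obtain ⟨z', hz', hzb⟩ := hb'
    have e1 := toEn_inl _ _ hza
    have e2 := toEn_inl _ _ hzb
    show val Z (Sum.inl b) < val Z (Sum.inl a)
    rw [← hza, ← hzb, val_eq Z hn z hz, val_eq Z hn z' hz', Nat.cast_lt]
    rw [e1.2, e2.2] at hab
    exact (hcm z hz z' hz' (by rw [e1.1, e2.1]) (lx _ _ _ _ hab)).1 e1.1
  · intro a b ha hb' hab
    rw [hW, List.mem_map] at ha hb'
    obtain ⟨z, hz, hza⟩ := ha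
    obtain ⟨z', hz', hzb⟩ := hb'
    have e1 := toEn_inr _ _ hza
    have e2 := toEn_inr _ _ hzb
    show val Z (Sum.inr a) < val Z (Sum.inr b)
    rw [← hza, ← hzb, val_eq Z hn z hz, val_eq Z hn z' hz', Nat.cast_lt]
    rw [e1.2, e2.2] at hab
    exact (hcm z hz z' hz' (by rw [e1.1, e2.1]) (lx _ _ _ _ hab)).2 e1.1
  · have h1 : (E.map toEn).map (Sum.map (fun q => val Z (Sum.inl q)) fun q => val Z (Sum.inr q)) =
        (T.map fun t => (t.1, t.2.2)).map en := by
      rw [hW, ← hZT, List.map_map, List.map_map, List.map_map, List.map_inj_left]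
      intro z hz
      have h2 := hkk z hz
      have h3 := val_eq Z hn z hz
      simp only [Function.comp]
      cases h4 : z.1.1
      · have h5 : toEn z.1 = Sum.inr (toLex ((z.1.2.1 : ℝ), (z.1.2.2 : ℝ))) := by
          unfold toEn
          rw [h4]
          rfl
        rw [h5] at h3
        rw [h5, Sum.map_inr, h3]
        unfold en
        rw [h2.1, h4]
        rfl
      · have h5 : toEn z.1 = Sum.inl (toLex ((z.1.2.1 : ℝ), (z.1.2.2 : ℝ))) := by
          unfold toEn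
          rw [h4]
          rfl
        rw [h5] at h3
        rw [h5, Sum.map_inl, h3]
        unfold en
        rw [h2.1, h4]
        rfl
    rw [h1, hr, ← flb_fl M]
    exact (rot (flb M) k).map en

end RPC

theorem t_RPC : Stmt_RPC := RPC.main

end LHJ
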