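import Pool.Agent.LHJ.E0
import Pool.Agent.LHJ.RPC
import Pool.Agent.LHJ.IEN

/-!
# The list `M0` represents the walk of the lattice path of `J`
-/

namespace LHJ

open Set LG LH LHE

theorem rpJ : Rp (ents (cPts 120 mJ zJ)) (cst M0) := by
  rw [t_IEN, eJ]
  exact t_RPC EJ M0 _ TJ rJ

end LHJ
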